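import Pool.Agent.Helper61.Tri.Goals

/-! Packet NOCENTER (MP_5b3c48_co, project of helper61). -/

set_option autoImplicit false

open Finset

namespace Pool.Agent.Helper29.Tri

open Pool.Agent.Helper61.Tri

open scoped Classical

/-- `s` distinct elements of a large finite set. -/
theorem exists_inj {V : Type} (T : Finset V) (s : ℕ) (h : s ≤ T.card) :
    ∃ e : Fin s → V, Function.Injective e ∧ ∀ l, e l ∈ T := by
  refine ⟨fun l => (T.equivFin.symm (Fin.castLE h l)).1, ?_, fun l => (T.equivFin.symm _).2⟩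
  intro a b hab
  have h1 := T.equivFin.symm.injective (Subtype.ext hab)
  exact Fin.castLE_injective h h1

theorem nocenter : SD → E1 → E2 → E4 → NoCenter := by
  intro sd e1 e2 e4 s hs
  obtain ⟨N, hN⟩ := sd (s + 3) (40 * s + 100)
  refine ⟨N, fun V _ G x w c hgrid hcn hcen => ?_⟩
  set m := 40 * s + 100 with hm
  have hm0 : 0 < m := by omega
  -- the elements different from `c`
  have hex : ∀ i j, ∃ e : Fin s → V, i < N → j < N →
      Function.Injective e ∧ ∀ l, e l ∈ (cn G (x i) (w j)).erase c := by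
    intro i j
    by_cases hij : i < N ∧ j < N
    · have h1 := hcn i hij.1 j hij.2
      have h2 : s ≤ ((cn G (x i) (w j)).erase c).card := by
        have := Finset.pred_card_le_card_erase (s := cn G (x i) (w j)) (a := c)
        omega
      obtain ⟨e, he1, he2⟩ := exists_inj _ s h2
      exact ⟨e, fun _ _ => ⟨he1, he2⟩⟩
    · exact ⟨fun _ => c, fun h1 h2 => absurd ⟨h1, h2⟩ hij⟩
  choose e he using hex
  -- the family of `s + 1` apex functions
  let h : Fin (s + 1) → ℕ → ℕ → V := fun k i j => (Fin.cons c (e i j) : Fin (s + 1) → V) k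
  have h0 : ∀ i j, h 0 i j = c := fun i j => rfl
  have hsucc : ∀ (l : Fin s) i j, h l.succ i j = e i j l := fun l i j => rfl
  have hadj : ∀ (k : Fin (s + 1)) i j, i < N → j < N →
      G.Adj (x i) (h k i j) ∧ G.Adj (w j) (h k i j) := by
    intro k i j hi hj
    refine Fin.cases ?_ (fun l => ?_) k
    · rw [h0]
      exact ⟨(hcen i hi).1, (hcen j hj).2⟩
    · rw [hsucc]
      have := (he i j hi hj).2 l
      rw [Finset.mem_erase] at this
      simpa [cn] using this.2
  have hinj : ∀ i j, i < N → j < N → ∀ k k' : Fin (s + 1), k ≠ k' → h k i j ≠ h k' i j := by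
    intro i j hi hj k k'
    refine Fin.cases ?_ (fun l => ?_) k <;> refine Fin.cases ?_ (fun l' => ?_) k'
    · intro hk; exact absurd rfl hk
    · intro _
      rw [h0, hsucc]
      have := (he i j hi hj).2 l'
      rw [Finset.mem_erase] at this
      exact this.1.symm
    · intro _
      rw [h0, hsucc]
      have := (he i j hi hj).2 l
      rw [Finset.mem_erase] at this
      exact this.1
    · intro hk
      rw [hsucc, hsucc]
      intro hh
      exact hk (congrArg Fin.succ ((he i j hi hj).1 hh))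
  -- the whole family
  let f : Fin (s + 3) → ℕ → ℕ → V := fun k =>
    (Fin.cons (fun i _ => x i) (Fin.cons (fun _ j => w j) h) : Fin (s + 3) → ℕ → ℕ → V) k
  have f0 : ∀ i j, f 0 i j = x i := fun i j => rfl
  have f1 : ∀ i j, f (Fin.succ 0) i j = w j := fun i j => rfl
  have f2 : ∀ (k : Fin (s + 1)) i j, f k.succ.succ i j = h k i j := fun k i j => rfl
  have hf : ∀ i < N, ∀ j < N, ∀ l l', l ≠ l' → f l i j ≠ f l' i j := by
    intro i hi j hj
    have key : ∀ l l' : Fin (s + 3), l < l' → f l i j ≠ f l' i j := by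
      intro l l'
      refine Fin.cases ?_ (fun l => ?_) l <;> refine Fin.cases ?_ (fun l' => ?_) l'
      · intro hl; exact absurd hl (lt_irrefl _)
      · intro _
        rw [f0]
        refine Fin.cases ?_ (fun k => ?_) l'
        · rw [f1]; exact (hgrid.adj i hi j hj).ne
        · rw [f2]; exact (hadj k i j hi hj).1.ne
      · intro hl; exact absurd hl (by simp [Fin.lt_def])
      · refine Fin.cases ?_ (fun k => ?_) l <;> refine Fin.cases ?_ (fun k' => ?_) l'
        · intro hl; exact absurd hl (lt_irrefl _)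
        · intro _
          rw [f1, f2]; exact (hadj k' i j hi hj).2.ne
        · intro hl; exact absurd hl (by simp [Fin.lt_def])
        · intro hl
          rw [f2, f2]
          refine hinj i j hi hj k k' ?_
          rintro rfl
          exact absurd hl (lt_irrefl _)
    intro l l' hl
    rcases lt_or_gt_of_ne hl with h1 | h1
    · exact key l l' h1
    · exact (key l' l h1).symm
  obtain ⟨ρ, γ, hlt, hne, hdich, hdd⟩ := hN V f hf
  -- the new grid
  have hG : Grid G m (fun i => x (ρ i)) (fun j => w (γ j)) :=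
    { adj := fun i hi j hj => hgrid.adj _ (hlt i hi).1 _ (hlt j hj).2
      injx := fun i hi j hj hij => by
        by_contra hne'
        exact (hne i hi j hj hne').1 (hgrid.injx _ (hlt i hi).1 _ (hlt j hj).1 hij)
      injw := fun i hi j hj hij => by
        by_contra hne'
        exact (hne i hi j hj hne').2 (hgrid.injw _ (hlt i hi).2 _ (hlt j hj).2 hij) }
  have hadj' : ∀ (k : Fin (s + 1)) i j, i < m → j < m →
      G.Adj (x (ρ i)) (h k (ρ i) (γ j)) ∧ G.Adj (w (γ j)) (h k (ρ i) (γ j)) :=
    fun k i j hi hj => hadj k _ _ (hlt i hi).1 (hlt j hj).2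
  -- constant functions
  let C : Fin (s + 1) → Prop := fun k => ∀ i < m, ∀ j < m, ∀ i' < m, ∀ j' < m,
    h k (ρ i) (γ j) = h k (ρ i') (γ j')
  have hCen : ∀ k, C k → Center G m (fun i => x (ρ i)) (fun j => w (γ j))
      (h k (ρ 0) (γ 0)) := by
    intro k hk i hi
    constructor
    · have := (hadj' k i 0 hi hm0).1
      rwa [hk i hi 0 hm0 0 hm0 0 hm0] at this
    · have := (hadj' k 0 i hm0 hi).2
      rwa [hk 0 hm0 i hi 0 hm0 0 hm0] at this
  have hDD : ∀ k k' : Fin (s + 1), k ≠ k' →
      DD m (fun i j => h k (ρ i) (γ j)) (fun i j => h k' (ρ i) (γ j)) := by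
    intro k k' hk
    exact hdd k.succ.succ k'.succ.succ (fun hh => hk (by simpa using hh))
  have hAp : ∀ k, ¬ C k → Apex G m (fun i => x (ρ i)) (fun j => w (γ j))
      (fun i j => h k (ρ i) (γ j)) := by
    intro k hk
    refine ⟨fun i hi j hj => (hadj' k i j hi hj).1, fun i hi j hj => (hadj' k i j hi hj).2,
      ?_, ?_, ?_⟩
    · rcases hdich k.succ.succ with h1 | h1
      · exact absurd h1 hk
      · exact h1
    · exact hdd k.succ.succ 0 (Fin.succ_ne_zero _)
    · exact hdd k.succ.succ (Fin.succ 0) (fun hh => Fin.succ_ne_zero _ (Fin.succ_injective _ hh))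
  have hC0 : C 0 := fun i _ j _ i' _ j' _ => by rw [h0, h0]
  have hdinj : ∀ k k' : Fin (s + 1), k ≠ k' → h k (ρ 0) (γ 0) ≠ h k' (ρ 0) (γ 0) :=
    fun k k' hk => hDD k k' hk 0 hm0 0 hm0 0 hm0 0 hm0
  have hDDc : ∀ k k' : Fin (s + 1), k ≠ k' →
      DD m (fun i j => h k (ρ i) (γ j)) (fun _ _ => h k' (ρ 0) (γ 0)) := by
    intro k k' hk i hi j hj i' _ j' _
    exact hDD k k' hk i hi j hj 0 hm0 0 hm0
  by_cases hall : ∀ k, C k
  · exact (e1 s (by omega) V G m _ _ le_rfl hG (fun k => h k (ρ 0) (γ 0))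
      (fun k k' hkk => by
        by_contra hne'
        exact hdinj k k' hne' hkk) (fun k => hCen k (hall k))).2.2
  · push Not at hall
    obtain ⟨k0, hk0⟩ := hall
    by_cases hone : ∀ k, k ≠ k0 → C k
    · exact (e2 s hs V G m _ _ le_rfl hG (fun l => h (k0.succAbove l) (ρ 0) (γ 0))
        (fun l l' hll => by
          by_contra hne'
          exact hdinj _ _ (fun hh => hne' (Fin.succAbove_right_injective hh)) hll)
        (fun l => hCen _ (hone _ (Fin.succAbove_ne _ _))) _ (hAp k0 hk0)
        (fun l => hDDc k0 _ (Fin.succAbove_ne _ _).symm)).2.2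
    · push Not at hone
      obtain ⟨k1, hk1, hk1'⟩ := hone
      have n0 : k0 ≠ 0 := fun hh => hk0 (hh ▸ hC0)
      have n1 : k1 ≠ 0 := fun hh => hk1' (hh ▸ hC0)
      exact e4 s (by omega) V G m _ _ le_rfl hG (h 0 (ρ 0) (γ 0)) (hCen 0 hC0) _ _
        (hAp k0 hk0) (hAp k1 hk1') (hDD k0 k1 hk1.symm) (hDDc k0 0 n0) (hDDc k1 0 n1)

end Pool.Agent.Helper29.Tri
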